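import Pool.Agent.V1175.SE.Statement2
import Pool.Agent.V1175.SE.Main2

open MeasureTheory

namespace Pool.Agent.Results.MP_612f91_an.StandardBorel

open Pool.Agent.V1175.SE

/-- **Q1 for all σ-finite measures on standard Borel spaces** (with or without atoms; in
particular for Lebesgue measure on `ℝ`): every *-isomorphism
`C*_u(X, V_μ) → C*_u(Y, V_ν)` is spatially implemented. -/
theorem result {X Y : Type*} [MeasurableSpace X] [StandardBorelSpace X] [MeasurableSpace Y]
    [StandardBorelSpace Y] (μ : Measure X) [SigmaFinite μ] (ν : Measure Y) [SigmaFinite ν]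
    (Φ : Op μ → Op ν) (h : IsStarIso Φ) : Spatial Φ :=
  spatial_main Φ h

end Pool.Agent.Results.MP_612f91_an.StandardBorel
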